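import Pool.Agent.Lib.MP_7a5e6c_co_PORD.Main

/-!
Graphs with a path growth are minimum weight drawable.
-/

namespace Pool.Agent.Results.MP_7a5e6c_co.PathGrowth

open Pool.Agent.MP7a5e6cPORD Pool.Agent.MP7a5e6cSEQ

theorem result {n : ℕ} (G : SimpleGraph (Fin n)) (O P U : List (Fin n)) (t : Fin n)
    (hG : PathGrowth G O P U) (ht : t ∉ O) (hO : ∀ v, v = t ∨ v ∈ O)
    (hadj : ∀ w ∈ O, G.Adj t w ↔ w ∈ U) :
    ∃ f : Fin n → EuclideanSpace ℝ (Fin 2), Function.Injective f ∧ IsTriangulation f G ∧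
      ∀ E : SimpleGraph (Fin n), IsTriangulation f E → E ≠ G → weight f G < weight f E :=
  drawable G O P U t hG ht hO hadj

end Pool.Agent.Results.MP_7a5e6c_co.PathGrowth
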