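import Pool.Agent.Lib.MP_7a5e6c_co_SEQ.Main

/-!
Triangulations that grow at their two ends are minimum weight drawable.
-/

namespace Pool.Agent.Results.MP_7a5e6c_co.TwoEndedGrowth

open Pool.Agent.MP7a5e6cSEQ

theorem result {n : ℕ} (G : SimpleGraph (Fin n)) (O U L : List (Fin n)) (hG : Grows G O U L)
    (hO : ∀ v, v ∈ O) :
    ∃ f : Fin n → EuclideanSpace ℝ (Fin 2), Function.Injective f ∧ IsTriangulation f G ∧
      ∀ E : SimpleGraph (Fin n), IsTriangulation f E → E ≠ G → weight f G < weight f E :=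
  drawable G O U L hG hO

end Pool.Agent.Results.MP_7a5e6c_co.TwoEndedGrowth
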